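import Pool.Agent.Lib.MP_63f67f_co.Main
import Pool.Agent.Lib.MP_63f67f_co_k3.Main

set_option autoImplicit false

namespace Pool.Agent.Results.MP_63f67f_co.AlgDegreeAll

/-- For every `k ≥ 3` and every `D` there is a single `k`-graph `F` (on the vertex set `Fin s`) whose codegree
Turan density is an algebraic number of degree at least `D` over the rationals. -/
theorem result :
    ∀ k : ℕ, 3 ≤ k → ∀ D : ℕ, ∃ (s : ℕ) (F : Finset (Finset (Fin s))), CT.Unif k F ∧
      ∃ γ : ℝ, CT.IsCodegDensity k F γ ∧ IsAlgebraic ℚ γ ∧ D ≤ (minpoly ℚ γ).natDegree := by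
  intro k hk D
  rcases Nat.lt_or_ge k 4 with h | h
  · obtain rfl : k = 3 := by omega
    exact CT3.main3 D
  · exact CT.main k h D

end Pool.Agent.Results.MP_63f67f_co.AlgDegreeAll
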